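import Mathlib
import Pool.Agent.H.MP_8e2f96_co.Select
import Pool.Agent.H.MP_8e2f96_co.Lam2

set_option autoImplicit false
set_option linter.unusedSectionVars false

/-!
# The spectral gap is bounded by a constant times the magneto-spectral height

For every finite connected graph of minimum degree at least two, `λ₂(G) ≤ 1200 ν(G)`.
-/

namespace Pool.Agent.Results.MP_8e2f96_co.SpectralGap

open Pool.Agent.H.MP_8e2f96_co Matrix

section defs

variable {V : Type} [Fintype V]

/-- A magnetic potential on `G`: a number of modulus one for every oriented edge, with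
`σ y x` the complex conjugate of `σ x y`. (Values off the edges are irrelevant.) -/
structure IsPotential (G : SimpleGraph V) (σ : V → V → ℂ) : Prop where
  norm_eq_one : ∀ x y, G.Adj x y → ‖σ x y‖ = 1
  conj_symm : ∀ x y, G.Adj x y → σ y x = starRingEnd ℂ (σ x y)

open Classical in
/-- The magnetic Laplacian `(Δ^σ f)(x) = ∑_{y ∼ x} (f x - σ x y * f y)`. -/
noncomputable def magLaplacian (G : SimpleGraph V) (σ : V → V → ℂ) (f : V → ℂ) (x : V) : ℂ :=
  ∑ y, if G.Adj x y then f x - σ x y * f y else 0

/-- The smallest eigenvalue `λ₁^σ(G)` of the magnetic Laplacian. -/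
noncomputable def lambda1 (G : SimpleGraph V) (σ : V → V → ℂ) : ℝ :=
  sInf {μ : ℝ | ∃ f : V → ℂ, f ≠ 0 ∧ ∀ x, magLaplacian G σ f x = (μ : ℂ) * f x}

/-- The magneto-spectral height `ν(G)`, the supremum of `λ₁^σ(G)` over all magnetic potentials. -/
noncomputable def nu (G : SimpleGraph V) : ℝ :=
  sSup {r : ℝ | ∃ σ : V → V → ℂ, IsPotential G σ ∧ r = lambda1 G σ}

open Classical in
/-- The spectral gap `λ₂(G)`: the second smallest eigenvalue, counted with multiplicity, of the
combinatorial Laplacian `D - A` (`eigenvalues₀` lists the eigenvalues in decreasing order).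
By convention it is `0` if `G` has fewer than two vertices. -/
noncomputable def lambda2 (G : SimpleGraph V) : ℝ :=
  if h : 2 ≤ Fintype.card V then
    (G.isHermitian_lapMatrix (R := ℝ)).eigenvalues₀ ⟨Fintype.card V - 2, by omega⟩
  else 0

end defs

section upper

variable {V : Type} [Fintype V]

lemma eigen_abs_le (G : SimpleGraph V) (σ : V → V → ℂ) (hσ : IsPotential G σ) (μ : ℝ)
    (h : ∃ f : V → ℂ, f ≠ 0 ∧ ∀ x, magLaplacian G σ f x = (μ : ℂ) * f x) :
    |μ| ≤ 2 * Fintype.card V := by
  classical
  obtain ⟨f, hf0, hf⟩ := h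
  obtain ⟨x0, hx0⟩ : ∃ x, f x ≠ 0 := by
    by_contra hcon
    push Not at hcon
    exact hf0 (funext hcon)
  have hne : (Finset.univ : Finset V).Nonempty := ⟨x0, Finset.mem_univ _⟩
  obtain ⟨x, _, hx⟩ := Finset.exists_max_image Finset.univ (fun x => ‖f x‖) hne
  have hfx : 0 < ‖f x‖ := lt_of_lt_of_le (norm_pos_iff.mpr hx0) (hx x0 (Finset.mem_univ _))
  have h1 : |μ| * ‖f x‖ ≤ 2 * Fintype.card V * ‖f x‖ := by
    calc |μ| * ‖f x‖ = ‖(μ : ℂ) * f x‖ := by rw [norm_mul, Complex.norm_real, Real.norm_eq_abs]
      _ = ‖magLaplacian G σ f x‖ := by rw [hf x]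
      _ ≤ ∑ y, ‖if G.Adj x y then f x - σ x y * f y else 0‖ := norm_sum_le _ _
      _ ≤ ∑ _y : V, 2 * ‖f x‖ := by
        apply Finset.sum_le_sum
        intro y _
        split_ifs with hxy
        · refine (norm_sub_le _ _).trans ?_
          rw [norm_mul, hσ.norm_eq_one x y hxy, one_mul]
          have := hx y (Finset.mem_univ _)
          linarith
        · simp only [norm_zero]; positivity
      _ = 2 * Fintype.card V * ‖f x‖ := by
        rw [Finset.sum_const, Finset.card_univ, nsmul_eq_mul]; ring
  exact le_of_mul_le_mul_right h1 hfx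

lemma lambda1_le (G : SimpleGraph V) (σ : V → V → ℂ) (hσ : IsPotential G σ) :
    lambda1 G σ ≤ 2 * Fintype.card V := by
  unfold lambda1
  rcases Set.eq_empty_or_nonempty
    {μ : ℝ | ∃ f : V → ℂ, f ≠ 0 ∧ ∀ x, magLaplacian G σ f x = (μ : ℂ) * f x} with h | ⟨μ, hμ⟩
  · rw [h, Real.sInf_empty]; positivity
  · refine (csInf_le ⟨-(2 * (Fintype.card V : ℝ)), ?_⟩ hμ).trans
      ((le_abs_self μ).trans (eigen_abs_le G σ hσ μ hμ))
    intro μ' hμ'
    exact (abs_le.mp (eigen_abs_le G σ hσ μ' hμ')).1

lemma le_nu (G : SimpleGraph V) (σ : V → V → ℂ) (hσ : IsPotential G σ) :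
    lambda1 G σ ≤ nu G := by
  apply le_csSup
  · refine ⟨2 * Fintype.card V, ?_⟩
    rintro r ⟨σ', hσ', rfl⟩
    exact lambda1_le G σ' hσ'
  · exact ⟨σ, hσ, rfl⟩

end upper

section lower

variable {V : Type} [Fintype V] [DecidableEq V]

lemma magLaplacian_eq (G : SimpleGraph V) [DecidableRel G.Adj] (σ : V → V → ℂ) (f : V → ℂ)
    (x : V) : magLaplacian G σ f x = ∑ y ∈ G.neighborFinset x, (f x - σ x y * f y) := by
  have h : ∑ y ∈ G.neighborFinset x, (f x - σ x y * f y) =
      ∑ y, (if y ∈ G.neighborFinset x then (f x - σ x y * f y) else 0) := by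
    rw [Finset.sum_ite_mem, Finset.univ_inter]
  rw [h]
  unfold magLaplacian
  apply Finset.sum_congr rfl
  intro y _
  by_cases hy : G.Adj x y <;> simp [hy]

/-- From positivity of the expected characteristic polynomial to a lower bound for `ν`. -/
theorem nu_ge (G : SimpleGraph V) [DecidableRel G.Adj] [Nonempty V] (x0 : ℝ)
    (h : ∀ x ≤ x0, 0 < fG G (fun v => (G.degree v : ℝ) - x) Finset.univ) : x0 ≤ nu G := by
  classical
  set X : Matrix V V ℝ := Matrix.diagonal (fun v => (G.degree v : ℝ)) with hX
  have hXs : X.IsSymm := by rw [hX]; exact Matrix.diagonal_transpose _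
  obtain ⟨s, hs, hdet⟩ := exists_signing (edgeList G) (edgeList_nodup G) (edgeList_ne G) X hXs
    (-x0) (by
      intro t ht
      have := h (-t) (by linarith)
      have hd : Matrix.diagonal (fun v => (G.degree v : ℝ) - (-t)) =
          X + t • (1 : Matrix V V ℝ) := by
        ext i j
        by_cases hij : i = j
        · subst hij; simp [hX]
        · simp [hX, hij, Matrix.one_apply_ne hij]
      unfold fG wList at this
      rw [hd] at this
      exact this)
  set r := Fintype.equivFin V with hr
  set σ : V → V → ℂ := fun x y => if r x < r y then ((-s (x, y) : ℝ) : ℂ) else ((-s (y, x) : ℝ) : ℂ)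
    with hσdef
  set M : Matrix V V ℝ := X + ((edgeList G).map (fun e => s e • (Esym e : Matrix V V ℝ))).sum
    with hM
  -- entries of M
  have hsum : ∀ x y, (((edgeList G).map (fun e => s e • (Esym e : Matrix V V ℝ))).sum) x y =
      (if G.Adj x y then (if r x < r y then s (x, y) else s (y, x)) else 0) := by
    intro x y
    unfold edgeList
    rw [Finset.sum_map_toList, Matrix.sum_apply, Finset.sum_filter]
    have h1 : ∀ e : V × V, (if G.Adj e.1 e.2 ∧ Fintype.equivFin V e.1 < Fintype.equivFin V e.2 then
        (s e • (Esym e : Matrix V V ℝ)) x y else 0) =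
        (if e = (x, y) then (if G.Adj x y ∧ r x < r y then s (x, y) else 0) else 0) +
        (if e = (y, x) then (if G.Adj x y ∧ r y < r x then s (y, x) else 0) else 0) := by
      intro e
      obtain ⟨a, b⟩ := e
      rw [← hr]
      simp only [Matrix.smul_apply, Esym, Matrix.add_apply, Matrix.single_apply, smul_eq_mul,
        Prod.mk.injEq]
      by_cases h1 : a = x ∧ b = y
      · obtain ⟨rfl, rfl⟩ := h1
        by_cases h2 : a = b
        · subst h2; simp
        · by_cases h3 : G.Adj a b ∧ r a < r b
          · simp [h3, h2]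
          · simp [h3, h2]
      · by_cases h2 : a = y ∧ b = x
        · obtain ⟨rfl, rfl⟩ := h2
          simp only [G.adj_comm b a]
          by_cases h4 : G.Adj a b ∧ r a < r b
          · simp [h4, h1]
          · simp [h4, h1]
        · have h2' : ¬ (b = x ∧ a = y) := fun h => h2 ⟨h.2, h.1⟩
          simp [h1, h2, h2']
    simp_rw [h1]
    rw [Finset.sum_add_distrib, Finset.sum_ite_eq', Finset.sum_ite_eq']
    simp only [Finset.mem_univ, if_true]
    by_cases hadj : G.Adj x y
    · have hne : r x ≠ r y := fun h => hadj.ne (r.injective h)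
      rcases lt_or_gt_of_ne hne with hlt | hgt
      · simp [hadj, hlt, not_lt.mpr hlt.le]
      · simp [hadj, hgt, not_lt.mpr hgt.le]
    · simp [hadj]
  have hpot : IsPotential G σ := by
    constructor
    · intro x y _
      simp only [hσdef]
      split_ifs
      · rw [Complex.norm_real, norm_neg]; rcases hs (x, y) with h | h <;> rw [h] <;> simp
      · rw [Complex.norm_real, norm_neg]; rcases hs (y, x) with h | h <;> rw [h] <;> simp
    · intro x y hxy
      have hne : r x ≠ r y := fun h => hxy.ne (r.injective h)
      simp only [hσdef]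
      rcases lt_or_gt_of_ne hne with hlt | hgt
      · rw [if_pos hlt, if_neg (not_lt.mpr hlt.le), Complex.conj_ofReal]
      · rw [if_pos hgt, if_neg (not_lt.mpr hgt.le), Complex.conj_ofReal]
  have hMent : ∀ x y, M x y = (if x = y then (G.degree x : ℝ) else 0) +
      (if G.Adj x y then (if r x < r y then s (x, y) else s (y, x)) else 0) := by
    intro x y
    rw [hM, Matrix.add_apply, hsum, hX, Matrix.diagonal_apply]
  have hLap : ∀ f : V → ℂ, ∀ x, magLaplacian G σ f x = ((M.map Complex.ofReal).mulVec f) x := by
    intro f x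
    rw [magLaplacian_eq]
    have h4 : ∀ y, (M.map Complex.ofReal) x y * f y =
        (if x = y then (G.degree x : ℂ) * f x else 0) -
          (if G.Adj x y then σ x y * f y else 0) := by
      intro y
      rw [Matrix.map_apply, hMent]
      simp only [hσdef]
      by_cases hxy : x = y
      · subst hxy; simp
      · by_cases hadj : G.Adj x y
        · by_cases hlt : r x < r y
          · simp [hxy, hadj, hlt]
          · simp [hxy, hadj, hlt]
        · simp [hxy, hadj]
    have h5 : ((M.map Complex.ofReal).mulVec f) x = ∑ y, (M.map Complex.ofReal) x y * f y := rfl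
    have h6 : ∑ y, (M.map Complex.ofReal) x y * f y =
        (G.degree x : ℂ) * f x - ∑ y ∈ G.neighborFinset x, σ x y * f y := by
      rw [Finset.sum_congr rfl (fun y _ => h4 y), Finset.sum_sub_distrib, Finset.sum_ite_eq]
      simp only [Finset.mem_univ, if_true]
      congr 1
      have h7 : ∑ y ∈ G.neighborFinset x, σ x y * f y =
          ∑ y, (if y ∈ G.neighborFinset x then σ x y * f y else 0) := by
        rw [Finset.sum_ite_mem, Finset.univ_inter]
      rw [h7]
      apply Finset.sum_congr rfl
      intro y _
      by_cases hy : G.Adj x y <;> simp [hy]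
    rw [h5, h6, Finset.sum_sub_distrib, Finset.sum_const, G.card_neighborFinset_eq_degree,
      nsmul_eq_mul]
  have hMs : M.IsHermitian := by
    ext x y
    rw [Matrix.conjTranspose_apply, star_trivial, hMent, hMent]
    by_cases hxy : x = y
    · subst hxy; rfl
    · rw [if_neg hxy, if_neg (Ne.symm hxy)]
      simp only [G.adj_comm y x]
      by_cases hadj : G.Adj x y
      · have hne : r x ≠ r y := fun h => hadj.ne (r.injective h)
        rcases lt_or_gt_of_ne hne with hlt | hgt
        · simp [hadj, hlt, not_lt.mpr hlt.le]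
        · simp [hadj, hgt, not_lt.mpr hgt.le]
      · simp [hadj]
  have hlam : x0 ≤ lambda1 G σ := by
    unfold lambda1
    apply le_csInf
    · -- existence of an eigenvalue
      obtain ⟨v0⟩ := ‹Nonempty V›
      refine ⟨hMs.eigenvalues v0, fun x => ((hMs.eigenvectorBasis v0) x : ℂ), ?_, ?_⟩
      · intro h0
        have hb : (hMs.eigenvectorBasis v0) ≠ 0 :=
          (hMs.eigenvectorBasis).orthonormal.ne_zero v0
        apply hb
        ext x
        have := congrFun h0 x
        simpa using this
      · intro x
        rw [hLap]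
        have h1 := congrFun (hMs.mulVec_eigenvectorBasis v0) x
        have h2 : ((M.map Complex.ofReal).mulVec (fun x => ((hMs.eigenvectorBasis v0) x : ℂ))) x =
            (((M.mulVec (⇑(hMs.eigenvectorBasis v0))) x : ℝ) : ℂ) := by
          simp [Matrix.mulVec, dotProduct]
        rw [h2, h1]
        simp
    · rintro μ ⟨f, hf0, hf⟩
      by_contra hcon
      push Not at hcon
      have hd := hdet (-μ) (by linarith)
      have hker : ((M + (-μ) • (1 : Matrix V V ℝ)).map Complex.ofReal).mulVec f = 0 := by
        ext x
        have h1 := hf x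
        rw [hLap] at h1
        have h2 : (M + (-μ) • (1 : Matrix V V ℝ)).map Complex.ofReal =
            M.map Complex.ofReal + (-(μ : ℂ)) • (1 : Matrix V V ℂ) := by
          ext i j
          by_cases hij : i = j
          · subst hij; simp
          · simp [Matrix.one_apply_ne hij]
        rw [h2, Matrix.add_mulVec, Matrix.smul_mulVec, Matrix.one_mulVec, Pi.add_apply, h1]
        simp
      apply hf0
      apply Matrix.eq_zero_of_mulVec_eq_zero _ hker
      have h3 : ((M + (-μ) • (1 : Matrix V V ℝ)).map Complex.ofReal).det =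
          (((M + (-μ) • (1 : Matrix V V ℝ)).det : ℝ) : ℂ) := by
        have := RingHom.map_det Complex.ofRealHom (M + (-μ) • (1 : Matrix V V ℝ))
        rw [RingHom.mapMatrix_apply] at this
        exact this.symm
      rw [h3]
      exact_mod_cast hd.ne'
  exact hlam.trans (le_nu G σ hpot)

/-- `lambda2` does not depend on the decidability instances. -/
lemma lambda2_eq {V : Type} [Fintype V] [i1 : DecidableEq V] (G : SimpleGraph V)
    [i2 : DecidableRel G.Adj] (h2 : 2 ≤ Fintype.card V) :
    lambda2 G =
      (G.isHermitian_lapMatrix (R := ℝ)).eigenvalues₀ ⟨Fintype.card V - 2, by omega⟩ := by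
  have h1 : i1 = (fun a b => Classical.propDecidable (a = b)) := Subsingleton.elim _ _
  have h3 : i2 = (fun a b => Classical.propDecidable (G.Adj a b)) := Subsingleton.elim _ _
  subst h1
  subst h3
  unfold lambda2
  rw [dif_pos h2]

end lower

/-- **Full positive answer to Q1, with a uniform constant.** For every finite connected graph `G`
with minimum degree at least two, `λ₂(G) ≤ 1200 ν(G)`. -/
theorem result (V : Type) [Fintype V] (G : SimpleGraph V) [DecidableRel G.Adj]
    (hconn : G.Connected) (hdeg : ∀ x, 2 ≤ G.degree x) : lambda2 G ≤ 1200 * nu G := by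
  classical
  have hV : Nonempty V := hconn.nonempty
  have h3 : 3 ≤ Fintype.card V := card_ge_three G hdeg
  have h2 : 2 ≤ Fintype.card V := by omega
  have hlam2 : lambda2 G =
      (G.isHermitian_lapMatrix (R := ℝ)).eigenvalues₀ ⟨Fintype.card V - 2, by omega⟩ := by
    exact lambda2_eq G h2
  rw [hlam2]
  -- the maximal thread length
  have hex : ∃ k, ∀ p, ¬ IsThread G k p := by
    refine ⟨Fintype.card V + 1, fun p hp => ?_⟩
    have hinj : Function.Injective (fun i : Fin (Fintype.card V + 1) => p i) := by
      intro i j hij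
      exact Fin.ext (hp.2.1 i i.2 j j.2 hij)
    have := Fintype.card_le_of_injective _ hinj
    simp at this
  set N := Nat.find hex with hN
  have hNspec : ∀ p, ¬ IsThread G N p := Nat.find_spec hex
  have hN0 : N ≠ 0 := by
    intro h0
    obtain ⟨v⟩ := hV
    apply hNspec (fun _ => v)
    rw [h0]
    refine ⟨fun i hi => by omega, fun i hi => by omega, fun i hi => by omega⟩
  obtain ⟨T, hT⟩ : ∃ T, N = T + 1 := ⟨N - 1, by omega⟩
  have hTnot : ∀ p, ¬ IsThread G (T + 1) p := by rw [← hT]; exact hNspec
  have hTex : ∃ p, IsThread G T p := by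
    have := Nat.find_min hex (m := T) (by rw [← hN]; omega)
    push Not at this
    exact this
  obtain ⟨p, hp⟩ := hTex
  have hnuT : 1 / (16 * ((T : ℝ) + 1) ^ 2) ≤ nu G := by
    apply nu_ge
    intro x hx
    exact (bound_thread G hdeg T hTnot x hx Finset.univ).1
  rcases Nat.lt_or_ge T 3 with hT3 | hT3
  · rcases Nat.eq_zero_or_pos T with hT0 | hT0
    · -- minimum degree at least three
      have hdeg3 : ∀ x, 3 ≤ G.degree x := by
        intro x
        have h2x := hdeg x
        rcases Nat.lt_or_ge (G.degree x) 3 with h | h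
        · exfalso
          obtain ⟨q, hq, _⟩ := threadIn_one G Finset.univ x (Finset.mem_univ _)
            (le_antisymm (by omega) h2x)
          apply hTnot q
          rw [hT0]
          exact hq
        · exact h
      obtain ⟨v, hv⟩ := G.exists_minimal_degree_vertex
      set d : ℝ := (G.degree v : ℝ) with hd
      have hd3 : 3 ≤ d := by rw [hd]; exact_mod_cast hdeg3 v
      have hmin : ∀ x, d ≤ G.degree x := by
        intro x
        rw [hd]
        have := G.minDegree_le_degree x
        rw [hv] at this
        exact_mod_cast this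
      have hnu : (d - 2) ^ 2 / (2 * d) ≤ nu G := by
        apply nu_ge
        intro x hx
        exact (bound_degree G d hd3 hmin x hx Finset.univ).1
      have hup := lap_second_le_degree G h2 h3 v
      rw [← hd] at hup
      have h18 : d / 18 ≤ (d - 2) ^ 2 / (2 * d) := by
        rw [div_le_div_iff₀ (by norm_num) (by linarith)]
        nlinarith
      linarith
    · have hup := lap_second_le_degree G h2 h3 (p 0)
      rw [hp.1 0 hT0] at hup
      have hT2 : (T : ℝ) + 1 ≤ 3 := by
        have : T + 1 ≤ 3 := by omega
        exact_mod_cast this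
      have hT00 : (0 : ℝ) ≤ T := Nat.cast_nonneg T
      have h144 : 1 / 144 ≤ 1 / (16 * ((T : ℝ) + 1) ^ 2) := by
        apply one_div_le_one_div_of_le (by positivity)
        nlinarith
      push_cast at hup
      linarith
  · have hup := lap_second_le_thread G h2 T hT3 p hp
    have hT3' : (3 : ℝ) ≤ T := by exact_mod_cast hT3
    have hfin : 40 / (T : ℝ) ^ 2 ≤ 1200 * (1 / (16 * ((T : ℝ) + 1) ^ 2)) := by
      rw [mul_one_div, div_le_div_iff₀ (by positivity) (by positivity)]
      nlinarith
    linarith

end Pool.Agent.Results.MP_8e2f96_co.SpectralGap
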